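import Pool.Agent.Y865.SP.Fin
import Pool.Agent.Y406.SP.Small
import Pool.Agent.H207R2.BL.Minor

/-!
# The Birkhoff-Lewis inequality for kaleidoscopic graphs

Graphs drawn on the sphere which are symmetric under a finite reflection group, no edge crossing a
mirror.
-/

set_option autoImplicit false

namespace Pool.Agent.Results.MP_0d034c_co.KaleidoscopicGraphs

open Polynomial Pool.Agent.H207R2.BL
open scoped RealInnerProductSpace

/-- Euclidean space of dimension three -/
abbrev E3 : Type := EuclideanSpace ℝ (Fin 3)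

/-- the reflection in the plane through the origin with unit normal vector `n` -/
noncomputable def reflect (n x : E3) : E3 := x - (2 * ⟪n, x⟫) • n

/-- A drawing of `G` on the unit sphere: vertices are distinct points, every edge is an arc (an
injective continuous curve) joining its two ends and avoiding all vertices in between, and arcs of
different edges do not meet in between. -/
structure SphereDrawing {V : Type} (G : SimpleGraph V) (f : V → E3) (γ : V → V → ℝ → E3) :
    Prop where
  vertex : ∀ v, ‖f v‖ = 1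
  inj : Function.Injective f
  arc : ∀ u v : V, G.Adj u v →
    ContinuousOn (γ u v) (Set.Icc (0:ℝ) 1) ∧ Set.InjOn (γ u v) (Set.Icc (0:ℝ) 1) ∧
    (∀ t ∈ Set.Icc (0:ℝ) 1, ‖γ u v t‖ = 1) ∧ γ u v 0 = f u ∧ γ u v 1 = f v ∧
    ∀ t ∈ Set.Ioo (0:ℝ) 1, ∀ w : V, γ u v t ≠ f w
  disjoint : ∀ u v u' v' : V, G.Adj u v → G.Adj u' v' → s(u, v) ≠ s(u', v') →
    ∀ t ∈ Set.Ioo (0:ℝ) 1, ∀ t' ∈ Set.Ioo (0:ℝ) 1, γ u v t ≠ γ u' v' t'

/-- Every edge whose two ends are in the closed half space `⟪n, x⟫ ≥ 0` is drawn there. -/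
def HalfDrawn {V : Type} (G : SimpleGraph V) (f : V → E3) (γ : V → V → ℝ → E3) (n : E3) : Prop :=
  ∀ u v, G.Adj u v → 0 ≤ ⟪n, f u⟫ → 0 ≤ ⟪n, f v⟫ → ∀ t ∈ Set.Icc (0 : ℝ) 1, 0 ≤ ⟪n, γ u v t⟫

/-- `G` is drawn on the unit sphere symmetrically with respect to the planes with unit normal
vectors in `M`, where `M` is finite, not empty and closed under the reflections in these planes (so
these are the mirrors of a finite reflection group; with `n` the set `M` contains `-n`), and no
edge crosses a mirror: no edge joins the two open half spaces of a mirror, and one of the two closed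
half spaces is such that all edges with both ends in it are drawn in it. -/
structure Kaleidoscopic {V : Type} (G : SimpleGraph V) (M : Set E3) (f : V → E3)
    (γ : V → V → ℝ → E3) : Prop where
  finite : M.Finite
  nonempty : M.Nonempty
  unit : ∀ n ∈ M, ‖n‖ = 1
  closed : ∀ n ∈ M, ∀ m ∈ M, reflect n m ∈ M
  drawing : SphereDrawing G f γ
  symmetric : ∀ n ∈ M, ∃ σ : V → V, (∀ v, f (σ v) = reflect n (f v)) ∧
    ∀ u v, G.Adj u v → G.Adj (σ u) (σ v)
  noCross : ∀ n ∈ M, ∀ u v, G.Adj u v → 0 < ⟪n, f u⟫ → 0 ≤ ⟪n, f v⟫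
  side : ∀ n ∈ M, HalfDrawn G f γ n ∨ HalfDrawn G f γ (-n)

/-- The vertices in the closed chamber (connected component of the complement of the mirrors,
together with its boundary) which contains the point `c`. -/
def chamber {V : Type} (M : Set E3) (f : V → E3) (c : E3) : Set V :=
  {v | ∀ n ∈ M, 0 < ⟪n, c⟫ → 0 ≤ ⟪n, f v⟫}

/-- Let `G` be a finite graph drawn on the sphere symmetrically with respect to a finite reflection
group, no edge crossing a mirror.  Let `c` be a point on no mirror, and let `K` be a subgraph of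
`G` (for example the part of `G` in the closed chamber of `c`) which contains all edges of `G`
between vertices of this chamber.  If `q ≥ 4` and `P(K,q) ≠ 0` then `P(G,q) > 0`.  Consequently
`P(G,q) > 0` for all real `q > 5 - 1/m`, where `m` is the number of vertices in the closed chamber,
and for all real `q > 4` if `m ≤ 11`, or if no minor of the part of `G` in the closed chamber has
minimum degree at least five. -/
theorem result (V : Type) [Finite V] (G : SimpleGraph V) (M : Set E3) (f : V → E3)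
    (γ : V → V → ℝ → E3) (h : Kaleidoscopic G M f γ) (c : E3) (hc : ∀ n ∈ M, ⟪n, c⟫ ≠ 0)
    (p : ℝ[X]) (hp : ∀ k : ℕ, p.eval (k : ℝ) = (Nat.card (G.Coloring (Fin k)) : ℝ)) :
    (∀ K : SimpleGraph V, K ≤ G →
      (∀ u v, u ∈ chamber M f c → v ∈ chamber M f c → G.Adj u v → K.Adj u v) →
      ∀ r : ℝ[X], (∀ k : ℕ, r.eval (k : ℝ) = (Nat.card (K.Coloring (Fin k)) : ℝ)) →
      ∀ q : ℝ, 4 ≤ q → r.eval q ≠ 0 → 0 < p.eval q) ∧
    (∀ q : ℝ, 5 - 1 / (Nat.card (chamber M f c) : ℝ) < q → 0 < p.eval q) ∧
    (Nat.card (chamber M f c) ≤ 11 → ∀ q : ℝ, 4 < q → 0 < p.eval q) ∧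
    (MinorDegLe 4 (G.induce (chamber M f c)) → ∀ q : ℝ, 4 < q → 0 < p.eval q) := by
  classical
  have hM : Pool.Agent.Y865.SP.Mirrors M := ⟨h.finite, h.unit, h.closed⟩
  have hd : Pool.Agent.Y865.SP.IsDr G f γ :=
    ⟨h.drawing.inj, fun u v huv => by
      obtain ⟨h1, h2, _, h4, h5, h6⟩ := h.drawing.arc u v huv
      exact ⟨h1, h2, h4, h5, h6⟩, h.drawing.disjoint⟩
  have he1 : ∀ u v, G.Adj u v → ∀ t ∈ Set.Icc (0 : ℝ) 1, ‖γ u v t‖ = 1 :=
    fun u v huv => (h.drawing.arc u v huv).2.2.1
  have hpc : p = chr G := eq_chr hp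
  have main : ∀ K : SimpleGraph V, K ≤ G →
      (∀ u v, u ∈ chamber M f c → v ∈ chamber M f c → G.Adj u v → K.Adj u v) →
      ∀ q : ℝ, 4 ≤ q → (chr K).eval q ≠ 0 → 0 < p.eval q := by
    intro K hK hK' q hq hne
    rw [hpc]
    exact Pool.Agent.Y865.SP.sphere_main G M hM h.nonempty f γ hd h.drawing.vertex he1
      h.symmetric h.noCross h.side c hc K hK hK' q hq hne
  have main' : ∀ q : ℝ, 4 ≤ q → (chr (G.induce (chamber M f c))).eval q ≠ 0 → 0 < p.eval q := by
    intro q hq hne
    refine main (Pool.Agent.Y865.SP.inside G (chamber M f c)) (fun x y h => h.2.2)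
      (fun u v hu hv huv => ⟨hu, hv, huv⟩) q hq ?_
    rw [Pool.Agent.Y865.SP.chr_inside, eval_mul, eval_pow, eval_X]
    exact mul_ne_zero hne (pow_ne_zero _ (by linarith))
  have hW : ¬ Pool.Agent.Y865.RF.WK _ (G.induce (chamber M f c)) :=
    Pool.Agent.Y865.SP.chamber_planar G M hM h.nonempty f γ hd h.drawing.vertex he1 h.symmetric
      h.side c hc
  refine ⟨?_, ?_, ?_, ?_⟩
  · intro K hK hK' r hr q hq hne
    rw [eq_chr hr] at hne
    exact main K hK hK' q hq hne
  · intro q hq
    have h4 : 4 ≤ q := by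
      rcases Nat.eq_zero_or_pos (Nat.card (chamber M f c)) with h0 | h0
      · rw [h0] at hq
        norm_num at hq
        linarith
      · have h1 : (1 : ℝ) ≤ Nat.card (chamber M f c) := by exact_mod_cast h0
        have h2 : 1 / (Nat.card (chamber M f c) : ℝ) ≤ 1 := by
          rw [div_le_one (by linarith)]
          exact h1
        linarith
    refine main' q h4 (ne_of_gt ?_)
    exact (Pool.Agent.Y865.RF.final _ hW _ (chr_spec _)).1 q hq
  · intro hcard q hq
    exact main' q hq.le (ne_of_gt (Pool.Agent.Y406.SP.small_pos _ _ hW hcard q hq))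
  · intro hm q hq
    exact main' q hq.le (ne_of_gt (minorDeg_pos 4 q (by exact_mod_cast hq) _ hm))

end Pool.Agent.Results.MP_0d034c_co.KaleidoscopicGraphs
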