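import Pool.Agent.Y865.KS.Arr
import Pool.Agent.Y865.RF.Fin
import Pool.Agent.Y406.SP.Small
import Pool.Agent.H207R2.BL.Minor

/-!
# The Birkhoff-Lewis inequality for arrays of mirror images of a plane graph
-/

set_option autoImplicit false

namespace Pool.Agent.Results.MP_0d034c_co.RectangularArrays

open Polynomial Pool.Agent.H207R2.BL

/-- the part of the plane graph `G` (with vertices at the points `f v`) in `x ≤ s`, `y ≤ t` -/
def part {V : Type} (G : SimpleGraph V) (f : V → ℝ × ℝ) (s t : ℝ) :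
    SimpleGraph {v : V | (f v).1 ≤ s ∧ (f v).2 ≤ t} :=
  G.induce {v : V | (f v).1 ≤ s ∧ (f v).2 ≤ t}

/-- The plane graph `G` is an array of unit squares with `2 m` columns and `2 n` rows in which
neighbouring squares are mirror images of each other: for `a = 1, …, m` the part of `G` in
`x ≤ 2 a` is symmetric with respect to the line `x = a`, no edge crossing this line, and for
`b = 1, …, n` the part in `y ≤ 2 b` is symmetric with respect to the line `y = b`, no edge crossing
this line.  (`MirrorDrawing` is stated for the `x`-axis, so the coordinates are changed.) -/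
structure MirrorArray {V : Type} (m n : ℕ) (G : SimpleGraph V) (f : V → ℝ × ℝ)
    (γ : V → V → ℝ → ℝ × ℝ) : Prop where
  drawing : IsDrawing G f γ
  vertical : ∀ a : ℕ, 1 ≤ a → a ≤ m → MirrorDrawing (G.induce {v : V | (f v).1 ≤ 2 * a})
    (fun v => ((f v.1).2, a - (f v.1).1))
    (fun u v t => ((γ u.1 v.1 t).2, a - (γ u.1 v.1 t).1))
  horizontal : ∀ b : ℕ, 1 ≤ b → b ≤ n → MirrorDrawing (G.induce {v : V | (f v).2 ≤ 2 * b})
    (fun v => ((f v.1).1, b - (f v.1).2))
    (fun u v t => ((γ u.1 v.1 t).1, b - (γ u.1 v.1 t).2))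

/-- `s = 1` or `s` is one of the even numbers `2, 4, …, 2 m` -/
def Side (m : ℕ) (s : ℝ) : Prop := s = 1 ∨ ∃ a : ℕ, 1 ≤ a ∧ a ≤ m ∧ s = 2 * a

/-- Let the plane graph `G` be a mirror array, and let `p` be the chromatic polynomial of its part
in `x ≤ s`, `y ≤ t`, where each of `s` and `t` is `1` or even, and not both are `1`: this part
consists of `s t` mirror images of the cell `H`, the part in `x ≤ 1`, `y ≤ 1`.  If `q ≥ 4` and
`P(H,q) ≠ 0` then `p(q) > 0`.  Consequently `p(q) > 0` for all real `q > 5 - 1/k` if the cell has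
`k` vertices, and for all real `q > 4` if `k ≤ 11`, or if no minor of `H` has minimum degree at
least five. -/
theorem result (V : Type) [Finite V] (m n : ℕ) (G : SimpleGraph V) (f : V → ℝ × ℝ)
    (γ : V → V → ℝ → ℝ × ℝ) (h : MirrorArray m n G f γ) (s t : ℝ) (hs : Side m s)
    (ht : Side n t) (hst : s ≠ 1 ∨ t ≠ 1) (p r : ℝ[X]) (hp : IsChrom (part G f s t) p)
    (hr : IsChrom (part G f 1 1) r) :
    (∀ q : ℝ, 4 ≤ q → r.eval q ≠ 0 → 0 < p.eval q) ∧
    (∀ q : ℝ, 5 - 1 / (Nat.card {v : V | (f v).1 ≤ 1 ∧ (f v).2 ≤ 1} : ℝ) < q → 0 < p.eval q) ∧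
    (Nat.card {v : V | (f v).1 ≤ 1 ∧ (f v).2 ≤ 1} ≤ 11 → ∀ q : ℝ, 4 < q → 0 < p.eval q) ∧
    (MinorDegLe 4 (part G f 1 1) → ∀ q : ℝ, 4 < q → 0 < p.eval q) := by
  classical
  have hpc : p = chr (part G f s t) := eq_chr hp
  have hrc : r = chr (part G f 1 1) := eq_chr hr
  have e : ∀ s t : ℝ, chr (part G f s t) =
      chr (G.induce ({v : V | (f v).1 ≤ s} ∩ {v : V | (f v).2 ≤ t})) := fun _ _ => rfl
  have e' : ∀ s t : ℝ, chr (part G f s t) =
      chr (G.induce ({v : V | (f v).2 ≤ t} ∩ {v : V | (f v).1 ≤ s})) := by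
    intro s t
    apply chr_iso
    intro p hp
    let i : part G f s t ≃g G.induce ({v : V | (f v).2 ≤ t} ∩ {v : V | (f v).1 ≤ s}) :=
      { toFun := fun v => ⟨v.1, v.2.2, v.2.1⟩
        invFun := fun v => ⟨v.1, v.2.2, v.2.1⟩
        left_inv := fun v => rfl
        right_inv := fun v => rfl
        map_rel_iff' := by
          intro a b
          exact Iff.rfl }
    exact hp.of_iso i
  have rowx : ∀ (t q : ℝ), 4 ≤ q → (chr (part G f 1 t)).eval q ≠ 0 → ∀ a : ℕ, 1 ≤ a → a ≤ m →
      0 < (chr (part G f (2 * a) t)).eval q := by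
    intro t q hq hne a h1 h2
    exact Pool.Agent.Y865.KS.row G (fun v => (f v).1) (fun v => (f v).2) {v : V | (f v).2 ≤ t}
      (fun u v hv huv => by
        change (f u).2 ≤ t
        rw [show (f u).2 = (f v).2 from huv]
        exact hv)
      (fun a u v t => ((γ u v t).2, a - (γ u v t).1)) m h.vertical q hq hne a h1 h2
  have rowy : ∀ (s q : ℝ), 4 ≤ q → (chr (part G f s 1)).eval q ≠ 0 → ∀ b : ℕ, 1 ≤ b → b ≤ n →
      0 < (chr (part G f s (2 * b))).eval q := by
    intro s q hq hne b h1 h2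
    rw [e'] at hne
    rw [e']
    exact Pool.Agent.Y865.KS.row G (fun v => (f v).2) (fun v => (f v).1) {v : V | (f v).1 ≤ s}
      (fun u v hv huv => by
        change (f u).1 ≤ s
        rw [show (f u).1 = (f v).1 from huv]
        exact hv)
      (fun b u v t => ((γ u v t).1, b - (γ u v t).2)) n h.horizontal q hq hne b h1 h2
  have main : ∀ q : ℝ, 4 ≤ q → r.eval q ≠ 0 → 0 < p.eval q := by
    intro q hq hne
    rw [hrc] at hne
    rw [hpc]
    rcases hs with rfl | ⟨a, ha1, ha2, rfl⟩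
    · rcases ht with rfl | ⟨b, hb1, hb2, rfl⟩
      · exact absurd hst (by simp)
      · exact rowy 1 q hq hne b hb1 hb2
    · have h1 := rowx 1 q hq hne a ha1 ha2
      rcases ht with rfl | ⟨b, hb1, hb2, rfl⟩
      · exact h1
      · exact rowy (2 * a) q hq h1.ne' b hb1 hb2
  have hW : ¬ Pool.Agent.Y865.RF.WK _ (part G f 1 1) := by
    apply Pool.Agent.Y865.RF.pl _ (part G f 1 1) (fun v => f v.1) (fun u v => γ u.1 v.1)
    refine ⟨h.drawing.1.comp Subtype.val_injective, ?_, ?_⟩
    · intro u v huv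
      obtain ⟨h1, h2, h3, h4, h5⟩ := h.drawing.2.1 _ _ huv
      exact ⟨h1, h2, h3, h4, fun t ht w => h5 t ht _⟩
    · intro u v u' v' huv huv' hne
      refine h.drawing.2.2 _ _ _ _ huv huv' ?_
      intro h6
      apply hne
      exact Sym2.map.injective Subtype.val_injective (a₁ := s(u, v)) (a₂ := s(u', v'))
        (by simpa using h6)
  refine ⟨main, ?_, ?_, ?_⟩
  · intro q hq
    have h4 : 4 ≤ q := by
      rcases Nat.eq_zero_or_pos (Nat.card {v : V | (f v).1 ≤ 1 ∧ (f v).2 ≤ 1}) with h0 | h0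
      · rw [h0] at hq
        norm_num at hq
        linarith
      · have h1 : (1 : ℝ) ≤ Nat.card {v : V | (f v).1 ≤ 1 ∧ (f v).2 ≤ 1} := by exact_mod_cast h0
        have h2 : 1 / (Nat.card {v : V | (f v).1 ≤ 1 ∧ (f v).2 ≤ 1} : ℝ) ≤ 1 := by
          rw [div_le_one (by linarith)]
          exact h1
        linarith
    refine main q h4 (ne_of_gt ?_)
    exact (Pool.Agent.Y865.RF.final _ hW _ hr).1 q hq
  · intro hcard q hq
    refine main q hq.le (ne_of_gt ?_)
    rw [hrc]
    exact Pool.Agent.Y406.SP.small_pos _ _ hW hcard q hq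
  · intro hm q hq
    refine main q hq.le (ne_of_gt ?_)
    rw [hrc]
    exact minorDeg_pos 4 q (by exact_mod_cast hq) _ hm

end Pool.Agent.Results.MP_0d034c_co.RectangularArrays
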