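import Pool.Agent.Y865.RF.Fin

/-!
# Chromatic roots of planar graphs near five

For every planar graph on `n` vertices the interval `(5 - 1/n, ∞)` contains no chromatic root, and
the disc of radius `(log 2)/n` around five contains no complex chromatic root.
-/

set_option autoImplicit false

namespace Pool.Agent.Results.MP_0d034c_co.RootFreeBelowFive

open Polynomial

/-- `G` can be drawn in the plane with non-crossing arcs: vertices are distinct points, every edge
is an arc (an injective continuous curve) joining its two ends and avoiding all vertices in between,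
and arcs of different edges do not meet in between. -/
def Planar {V : Type} (G : SimpleGraph V) : Prop :=
  ∃ (f : V → ℝ × ℝ) (γ : V → V → ℝ → ℝ × ℝ),
    Function.Injective f ∧
    (∀ u v : V, G.Adj u v →
      ContinuousOn (γ u v) (Set.Icc (0:ℝ) 1) ∧ Set.InjOn (γ u v) (Set.Icc (0:ℝ) 1) ∧
      γ u v 0 = f u ∧ γ u v 1 = f v ∧
      ∀ t ∈ Set.Ioo (0:ℝ) 1, ∀ w : V, γ u v t ≠ f w) ∧
    (∀ u v u' v' : V, G.Adj u v → G.Adj u' v' → s(u, v) ≠ s(u', v') →
      ∀ t ∈ Set.Ioo (0:ℝ) 1, ∀ t' ∈ Set.Ioo (0:ℝ) 1, γ u v t ≠ γ u' v' t')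

/-- Let `G` be a planar graph with `n` vertices and `P` its chromatic polynomial. Then `P(q) > 0`
for all real `q > 5 - 1/n`, and for `5 - 1/n ≤ q ≤ 5` one even has
`(1 - n (5 - q)) P(5) ≤ P(q) ≤ P(5)`; and `P(z) ≠ 0` for all complex `z` with
`|z - 5| < (log 2)/n`. -/
theorem result (V : Type) [Finite V] (G : SimpleGraph V) (hG : Planar G) (p : ℝ[X])
    (hp : ∀ k : ℕ, p.eval (k : ℝ) = (Nat.card (G.Coloring (Fin k)) : ℝ)) :
    (∀ q : ℝ, 5 - 1 / (Nat.card V : ℝ) < q → 0 < p.eval q) ∧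
    (∀ q : ℝ, 5 - 1 / (Nat.card V : ℝ) ≤ q → q ≤ 5 →
      (1 - Nat.card V * (5 - q)) * p.eval 5 ≤ p.eval q ∧ p.eval q ≤ p.eval 5) ∧
    (∀ z : ℂ, ‖z - 5‖ < Real.log 2 / (Nat.card V : ℝ) → aeval z p ≠ 0) := by
  obtain ⟨f, γ, h1, h2, h3⟩ := hG
  have h := Pool.Agent.Y865.RF.final G (Pool.Agent.Y865.RF.pl V G f γ ⟨h1, h2, h3⟩) p hp
  exact ⟨h.1, h.2.1, h.2.2.1⟩

end Pool.Agent.Results.MP_0d034c_co.RootFreeBelowFive
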